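import Pool.Agent.Run7.h343.PV.Iface2

/-!
# Project PV (helper343), piece SMB: the bottom block of the second moment
-/

set_option autoImplicit false

namespace Pool.Agent.Run7.h393.PV

open Finset Complex Pool.Agent.Run7.h343.PV

theorem UU_lb {J p ν : ℕ} (hJ : 3 ≤ J) (hp : p.Prime) (hν : 160 * J ≤ ν) : 4 ≤ UU J p ν := by
  unfold UU
  rw [Real.log_pow]
  have h2 : (1 / 2 : ℝ) ≤ Real.log p := by
    have h1 : Real.log 2 ≤ Real.log p := Real.log_le_log (by norm_num) (by exact_mod_cast hp.two_le)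
    have h3 := Real.log_two_gt_d9
    linarith
  have hJ0 : (3 : ℝ) ≤ J := by exact_mod_cast hJ
  have hJ' : (0 : ℝ) < 20 * J := by linarith
  rw [le_div_iff₀ hJ']
  have h4 : (160 * J : ℝ) ≤ ν := by exact_mod_cast hν
  have h5 : (160 * J : ℝ) * (1 / 2) ≤ ν * Real.log p :=
    mul_le_mul h4 h2 (by norm_num) (Nat.cast_nonneg ν)
  linarith

theorem q_eq {J p : ℕ} (ν : ℕ) (hJ : 3 ≤ J) (hp : p.Prime) :
    ((p : ℝ) ^ ν) = Real.exp (20 * J * UU J p ν) := by
  unfold UU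
  have hJ0 : (3 : ℝ) ≤ J := by exact_mod_cast hJ
  have hJ' : (20 * J : ℝ) ≠ 0 := by linarith
  have hp0 : (0 : ℝ) < p := by exact_mod_cast hp.pos
  have h1 : (20 * J : ℝ) * (Real.log ((p : ℝ) ^ ν) / (20 * J)) = Real.log ((p : ℝ) ^ ν) := by
    field_simp
  rw [h1, Real.exp_log (by positivity)]

theorem abs_mu_le (n : ℕ) : |mu n| ≤ 1 := by
  unfold mu
  exact_mod_cast ArithmeticFunction.abs_moebius_le_one (n := n)

theorem PL_nonneg (Y : ℝ) (l : ℕ) : 0 ≤ PL Y l := le_max_left _ _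

theorem PL_le_one {Y : ℝ} (hY : 1 < Y) (l : ℕ) : PL Y l ≤ 1 := by
  unfold PL
  apply max_le (by norm_num)
  have h1 : 0 ≤ Real.log l := Real.log_natCast_nonneg l
  have h2 : 0 < Real.log Y := Real.log_pos hY
  have h3 : 0 ≤ Real.log l / Real.log Y := by positivity
  linarith

/-- the bottom block: `DD` is close to the divisor sum -/
theorem DD_close {Y U ε : ℝ} (hY : 1 < Y) (h : ℝ → ℝ) (n : ℕ) (hn : 1 ≤ n) (hε : 0 ≤ ε)
    (hU : Real.log n ≤ U) (hh : ∀ t, t ≤ U → |1 - h t| ≤ ε) :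
    |DD Y h n - ∑ l ∈ n.divisors, mu l * PL Y l| ≤ n * ε := by
  unfold DD
  rw [← Finset.sum_sub_distrib]
  refine (Finset.abs_sum_le_sum_abs _ _).trans ?_
  have h1 : ∀ l ∈ n.divisors,
      |mu l * PL Y l * h (Real.log ((n : ℝ) / l)) - mu l * PL Y l| ≤ ε := by
    intro l hl
    have hl1 : 1 ≤ l := Nat.pos_of_mem_divisors hl
    have hn0 : (0 : ℝ) < n := by exact_mod_cast hn
    have hl0 : (1 : ℝ) ≤ l := by exact_mod_cast hl1
    have h2 : Real.log ((n : ℝ) / l) ≤ U := by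
      refine le_trans ?_ hU
      apply Real.log_le_log (by positivity)
      exact div_le_self hn0.le hl0
    have h3 := hh _ h2
    have h4 : mu l * PL Y l * h (Real.log ((n : ℝ) / l)) - mu l * PL Y l =
        -(mu l * (PL Y l * (1 - h (Real.log ((n : ℝ) / l))))) := by ring
    rw [h4, abs_neg, abs_mul, abs_mul]
    calc |mu l| * (|PL Y l| * |1 - h (Real.log ((n : ℝ) / l))|)
        ≤ 1 * (1 * ε) := by
          apply mul_le_mul (abs_mu_le l) _ (by positivity) (by norm_num)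
          apply mul_le_mul _ h3 (abs_nonneg _) (by norm_num)
          rw [abs_of_nonneg (PL_nonneg Y l)]
          exact PL_le_one hY l
      _ = ε := by ring
  refine (Finset.sum_le_sum h1).trans ?_
  rw [Finset.sum_const, nsmul_eq_mul]
  apply mul_le_mul_of_nonneg_right _ hε
  exact_mod_cast Nat.card_divisors_le_self n

/-- the diagonal terms of the bottom block -/
theorem diag_bottom (hD : S_DIAG) (hB : S_BOT) (J : ℕ) (hJ : 3 ≤ J) : ∃ C : ℝ, 0 < C ∧
    ∀ (p ν : ℕ) (h : ℝ → ℝ), p.Prime → 4 ≤ UU J p ν →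
    (∀ t, |h t| ≤ 1) → (∀ s t, |h s - h t| ≤ 4 * |s - t| / UU J p ν) →
    (∀ t, t ≤ J * UU J p ν →
      |1 - h t| ≤ 2 * (Real.exp (2 * t + UU J p ν) / (p : ℝ) ^ ν) ^ (1 / 4 : ℝ)) →
    (∀ t, (J + 1) * UU J p ν ≤ t → h t = 0) → ∀ M : ℕ,
    ∑ n ∈ Icc 1 M, DD (YY J p ν) h n ^ 2 / n ≤ C := by
  obtain ⟨CD, hCD, HD⟩ := hD
  obtain ⟨CB, hCB, HB⟩ := hB
  have hJ0 : (3 : ℝ) ≤ J := by exact_mod_cast hJ
  refine ⟨CD * (50 * (J + 2) + 1) + (2 * (CB * (8 * (J + 1))) + 8), by positivity, ?_⟩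
  intro p ν h hp hU4 hh1 hlip hbot hsup M
  have hq := q_eq ν hJ hp
  set U : ℝ := UU J p ν with hUdef
  have hU0 : 0 < U := by linarith
  have hlogY : Real.log (YY J p ν) = U := by unfold YY; rw [Real.log_exp]
  have hY2 : 2 ≤ YY J p ν := by
    unfold YY
    have := Real.add_one_le_exp (UU J p ν)
    linarith
  have hY1 : 1 < YY J p ν := by linarith
  set x₁ : ℝ := Real.exp (J * U) with hx₁
  have hlogx : Real.log x₁ = J * U := by rw [hx₁, Real.log_exp]
  have hx₁pos : 0 < x₁ := Real.exp_pos _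
  have hJU : 12 ≤ J * U := by nlinarith
  -- part one
  have P1 : ∑ n ∈ (Icc 1 M).filter (fun n : ℕ => x₁ < (n : ℝ)), DD (YY J p ν) h n ^ 2 / n ≤
      CD * (50 * (J + 2) + 1) := by
    have h3 : YY J p ν ^ 3 ≤ x₁ := by
      unfold YY
      rw [← Real.exp_nat_mul, hx₁]
      apply Real.exp_le_exp.2
      push_cast
      nlinarith
    have h4 : ∀ s t, |h s - h t| ≤ |s - t| / (U / 4) := by
      intro s t
      refine (hlip s t).trans (le_of_eq ?_)
      field_simp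
    have h5 := HD (YY J p ν) x₁ ((J + 1) * U) (U / 4) h hY2 h3 (by linarith) hh1 h4 hsup M
    refine h5.trans ?_
    apply mul_le_mul_of_nonneg_left _ hCD.le
    rw [hlogY, abs_of_nonneg (by positivity)]
    have h6 : (1 / U + 1 / (U / 4)) ^ 2 = 25 / U ^ 2 := by field_simp; ring
    rw [h6]
    have h7 : ((J + 1) * U + U) * (25 / U ^ 2) * (1 + U) = 25 * (J + 2) * ((1 + U) / U) := by
      field_simp
      ring
    rw [h7]
    have h8 : (1 + U) / U ≤ 2 := by rw [div_le_iff₀ hU0]; linarith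
    have h9 : 25 * ((J : ℝ) + 2) * ((1 + U) / U) ≤ 25 * (J + 2) * 2 :=
      mul_le_mul_of_nonneg_left h8 (by positivity)
    linarith
  -- part two
  have hε : ∀ t, t ≤ J * U → |1 - h t| ≤ 2 * Real.exp ((1 - 18 * J) * U / 4) := by
    intro t ht
    refine (hbot t ht).trans ?_
    apply mul_le_mul_of_nonneg_left _ (by norm_num)
    rw [hq, ← Real.exp_sub, ← Real.exp_mul]
    apply Real.exp_le_exp.2
    nlinarith
  have P2 : ∑ n ∈ (Icc 1 M).filter (fun n : ℕ => ¬ x₁ < (n : ℝ)), DD (YY J p ν) h n ^ 2 / n ≤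
      2 * (CB * (8 * (J + 1))) + 8 := by
    have h3 : 3 ≤ x₁ := by
      have := Real.add_one_le_exp (J * U)
      rw [hx₁]; linarith
    have h5 := HB (YY J p ν) x₁ hY2 h3
    have h6 : CB * (1 + Real.log x₁) * (1 / Real.log (YY J p ν) + 1 / Real.log x₁) ^ 2 *
        (1 + Real.log (YY J p ν)) ≤ CB * (8 * (J + 1)) := by
      rw [hlogY, hlogx]
      have a1 : 1 / U + 1 / (J * U) ≤ 2 / U := by
        have : 1 / (J * U) ≤ 1 / U := by
          apply one_div_le_one_div_of_le hU0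
          nlinarith
        have e : 2 / U = 1 / U + 1 / U := by ring
        linarith
      have a2 : (1 / U + 1 / (J * U)) ^ 2 ≤ (2 / U) ^ 2 :=
        pow_le_pow_left₀ (by positivity) a1 2
      have a3 : 1 + J * U ≤ (J + 1) * U := by nlinarith
      have a4 : 1 + U ≤ 2 * U := by linarith
      calc CB * (1 + J * U) * (1 / U + 1 / (J * U)) ^ 2 * (1 + U)
          ≤ CB * ((J + 1) * U) * (2 / U) ^ 2 * (2 * U) := by gcongr
        _ = CB * (8 * (J + 1)) := by field_simp; ring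
    have h7 : ∀ n ∈ (Icc 1 M).filter (fun n : ℕ => ¬ x₁ < (n : ℝ)),
        DD (YY J p ν) h n ^ 2 / n ≤
          2 * ((∑ l ∈ n.divisors, mu l * PL (YY J p ν) l) ^ 2 / n) + 8 * Real.exp (-(6 * J * U)) := by
      intro n hn
      rw [mem_filter, mem_Icc, not_lt] at hn
      obtain ⟨⟨hn1, -⟩, hnx⟩ := hn
      have hn0 : (0 : ℝ) < n := by exact_mod_cast hn1
      have hn1' : (1 : ℝ) ≤ n := by exact_mod_cast hn1
      have hlogn : Real.log n ≤ J * U := by
        rw [← hlogx]; exact Real.log_le_log hn0 hnx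
      have h8 := DD_close hY1 h n hn1 (by positivity) hlogn hε
      set S : ℝ := ∑ l ∈ n.divisors, mu l * PL (YY J p ν) l with hS
      set D : ℝ := DD (YY J p ν) h n with hDd
      have h9 : |D - S| ≤ 2 * Real.exp (-(3 * J * U)) := by
        refine h8.trans ?_
        calc (n : ℝ) * (2 * Real.exp ((1 - 18 * J) * U / 4))
            ≤ x₁ * (2 * Real.exp ((1 - 18 * J) * U / 4)) := by gcongr
          _ = 2 * Real.exp (J * U + (1 - 18 * J) * U / 4) := by
              rw [hx₁, Real.exp_add]; ring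
          _ ≤ 2 * Real.exp (-(3 * J * U)) := by
              apply mul_le_mul_of_nonneg_left _ (by norm_num)
              apply Real.exp_le_exp.2
              nlinarith
      have h10 : D ^ 2 ≤ 2 * S ^ 2 + 2 * (D - S) ^ 2 := by nlinarith [sq_nonneg (D - 2 * S)]
      have h11 : (D - S) ^ 2 ≤ 4 * Real.exp (-(6 * J * U)) := by
        have e1 : (D - S) ^ 2 = |D - S| ^ 2 := (sq_abs _).symm
        have e2 : (2 * Real.exp (-(3 * J * U))) ^ 2 = 4 * Real.exp (-(6 * J * U)) := by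
          rw [mul_pow, ← Real.exp_nat_mul]
          congr 1
          · norm_num
          · congr 1; push_cast; ring
        rw [e1, ← e2]
        exact pow_le_pow_left₀ (abs_nonneg _) h9 2
      have h12 : D ^ 2 / n ≤ (2 * S ^ 2 + 8 * Real.exp (-(6 * J * U))) / n := by
        apply div_le_div_of_nonneg_right _ hn0.le
        linarith
      refine h12.trans ?_
      rw [add_div]
      have e3 : 2 * S ^ 2 / n = 2 * (S ^ 2 / n) := by ring
      have e4 : 8 * Real.exp (-(6 * J * U)) / n ≤ 8 * Real.exp (-(6 * J * U)) :=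
        div_le_self (by positivity) hn1'
      linarith
    refine (Finset.sum_le_sum h7).trans ?_
    rw [Finset.sum_add_distrib, ← Finset.mul_sum, Finset.sum_const, nsmul_eq_mul]
    have hsub : (Icc 1 M).filter (fun n : ℕ => ¬ x₁ < (n : ℝ)) ⊆ Icc 1 ⌊x₁⌋₊ := by
      intro n hn
      rw [mem_filter, mem_Icc, not_lt] at hn
      rw [mem_Icc]
      exact ⟨hn.1.1, Nat.le_floor hn.2⟩
    have h13 : ∑ n ∈ (Icc 1 M).filter (fun n : ℕ => ¬ x₁ < (n : ℝ)),
        (∑ l ∈ n.divisors, mu l * PL (YY J p ν) l) ^ 2 / n ≤ CB * (8 * (J + 1)) := by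
      refine le_trans (Finset.sum_le_sum_of_subset_of_nonneg hsub ?_) (h5.trans h6)
      intro n _ _
      positivity
    have h14 : (((Icc 1 M).filter (fun n : ℕ => ¬ x₁ < (n : ℝ))).card : ℝ) ≤ x₁ := by
      have c1 : ((Icc 1 M).filter (fun n : ℕ => ¬ x₁ < (n : ℝ))).card ≤ ⌊x₁⌋₊ := by
        have := Finset.card_le_card hsub
        simpa using this
      exact (by exact_mod_cast c1 : (((Icc 1 M).filter (fun n : ℕ => ¬ x₁ < (n : ℝ))).card : ℝ) ≤
        (⌊x₁⌋₊ : ℝ)).trans (Nat.floor_le hx₁pos.le)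
    have h15 : (((Icc 1 M).filter (fun n : ℕ => ¬ x₁ < (n : ℝ))).card : ℝ) *
        (8 * Real.exp (-(6 * J * U))) ≤ 8 := by
      calc (((Icc 1 M).filter (fun n : ℕ => ¬ x₁ < (n : ℝ))).card : ℝ) *
          (8 * Real.exp (-(6 * J * U))) ≤ x₁ * (8 * Real.exp (-(6 * J * U))) := by gcongr
        _ = 8 * Real.exp (J * U + -(6 * J * U)) := by rw [hx₁, Real.exp_add]; ring
        _ ≤ 8 * 1 := by
            apply mul_le_mul_of_nonneg_left _ (by norm_num)
            rw [← Real.exp_zero]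
            apply Real.exp_le_exp.2
            nlinarith
        _ = 8 := by ring
    linarith
  rw [← Finset.sum_filter_add_sum_filter_not (Icc 1 M) (fun n : ℕ => x₁ < (n : ℝ))]
  linarith

/-- no off-diagonal terms in the bottom block -/
theorem OD_zero {p ν m : ℕ} (χ : DirichletCharacter ℂ (p ^ ν)) (h : ℝ → ℝ) (N l₁ l₂ : ℕ) (A B : ℝ)
    (hsup : ∀ t, A ≤ t → h t = 0) (hl₁ : 1 ≤ l₁) (hl₂ : 1 ≤ l₂) (h₁ : (l₁ : ℝ) ≤ B)
    (h₂ : (l₂ : ℝ) ≤ B) (hB : B * Real.exp A ≤ (p : ℝ) ^ m) :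
    OD χ m h N l₁ l₂ = 0 := by
  unfold OD
  apply Finset.sum_eq_zero
  intro n₁ hn₁
  apply Finset.sum_eq_zero
  intro n₂ hn₂
  rw [mem_Icc] at hn₁ hn₂
  split_ifs with hc
  · obtain ⟨hdiv, hne⟩ := hc
    by_cases c₁ : A ≤ Real.log n₁
    · rw [hsup _ c₁]; simp
    by_cases c₂ : A ≤ Real.log n₂
    · rw [hsup _ c₂]; simp
    exfalso
    apply hne
    have hn₁0 : (0 : ℝ) < n₁ := by exact_mod_cast hn₁.1
    have hn₂0 : (0 : ℝ) < n₂ := by exact_mod_cast hn₂.1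
    have hl₁0 : (0 : ℝ) < l₁ := by exact_mod_cast hl₁
    have hl₂0 : (0 : ℝ) < l₂ := by exact_mod_cast hl₂
    have b₁ : (n₁ : ℝ) < Real.exp A := by
      rw [← Real.exp_log hn₁0]; exact Real.exp_lt_exp.2 (not_le.1 c₁)
    have b₂ : (n₂ : ℝ) < Real.exp A := by
      rw [← Real.exp_log hn₂0]; exact Real.exp_lt_exp.2 (not_le.1 c₂)
    have d₁ : (l₁ : ℝ) * n₁ < (p : ℝ) ^ m := by
      refine lt_of_lt_of_le ?_ hB
      exact mul_lt_mul' h₁ b₁ hn₁0.le (lt_of_lt_of_le hl₁0 h₁)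
    have d₂ : (l₂ : ℝ) * n₂ < (p : ℝ) ^ m := by
      refine lt_of_lt_of_le ?_ hB
      exact mul_lt_mul' h₂ b₂ hn₂0.le (lt_of_lt_of_le hl₂0 h₂)
    have e₁ : l₁ * n₁ < p ^ m := by exact_mod_cast d₁
    have e₂ : l₂ * n₂ < p ^ m := by exact_mod_cast d₂
    have f : (l₁ : ℤ) * n₁ - l₂ * n₂ = 0 := by
      apply Int.eq_zero_of_abs_lt_dvd hdiv
      rw [abs_lt]
      have e₁' : (l₁ : ℤ) * n₁ < ((p ^ m : ℕ) : ℤ) := by exact_mod_cast e₁
      have e₂' : (l₂ : ℤ) * n₂ < ((p ^ m : ℕ) : ℤ) := by exact_mod_cast e₂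
      have g₁ : (0 : ℤ) ≤ (l₁ : ℤ) * n₁ := by positivity
      have g₂ : (0 : ℤ) ≤ (l₂ : ℤ) * n₂ := by positivity
      constructor <;> linarith
    have g : (l₁ : ℤ) * n₁ = l₂ * n₂ := by linarith
    exact_mod_cast g
  · rfl

/-- the piece SMB -/
theorem t_SMB (hSM : S_SM) (hD : S_DIAG) (hB : S_BOT) : S_SMB := by
  intro J hJ
  obtain ⟨C, hC, H⟩ := diag_bottom hD hB J hJ
  refine ⟨C, hC, 160 * J, ?_⟩
  intro p ν m hmν hne χ h hp hν hm hpm hh1 hlip hbot hsup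
  have hU4 : 4 ≤ UU J p ν := UU_lb hJ hp hν
  have hq := q_eq ν hJ hp
  have hJ0 : (3 : ℝ) ≤ J := by exact_mod_cast hJ
  have hY1 : 1 ≤ YY J p ν := by
    unfold YY
    have := Real.add_one_le_exp (UU J p ν)
    linarith
  have hN : ∀ t, Real.log (NN J p ν) < t → h t = 0 := by
    intro t ht
    apply hsup
    have h1 : Real.exp ((10 * J + 2) * UU J p ν) ≤ (NN J p ν : ℝ) := Nat.le_ceil _
    have h2 : (10 * J + 2) * UU J p ν ≤ Real.log (NN J p ν) := by
      rw [Real.le_log_iff_exp_le (lt_of_lt_of_le (Real.exp_pos _) h1)]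
      exact h1
    nlinarith
  have hOD : ∀ l₁ l₂ : ℕ, 1 ≤ l₁ → 1 ≤ l₂ → (l₁ : ℝ) ≤ YY J p ν → (l₂ : ℝ) ≤ YY J p ν →
      l₁.Coprime p → l₂.Coprime p → ‖OD χ m h (NN J p ν) l₁ l₂‖ ≤ 0 := by
    intro l₁ l₂ a b c d _ _
    rw [OD_zero χ h (NN J p ν) l₁ l₂ ((J + 1) * UU J p ν) (YY J p ν) hsup a b c d, norm_zero]
    refine le_trans ?_ hpm
    unfold YY
    rw [← Real.exp_add, hq, ← Real.exp_mul]
    apply Real.exp_le_exp.2
    nlinarith
  have h1 := hSM p ν m hmν χ (YY J p ν) 0 h (NN J p ν) hp hm hY1 le_rfl hN hOD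
  refine h1.trans ?_
  have h2 := H p ν h hp hU4 hh1 hlip hbot hsup (⌊YY J p ν⌋₊ * NN J p ν)
  have hp0 : (0 : ℝ) ≤ (p : ℝ) ^ m := by positivity
  calc (p : ℝ) ^ m * (∑ n ∈ Icc 1 (⌊YY J p ν⌋₊ * NN J p ν), DD (YY J p ν) h n ^ 2 / n +
        4 * YY J p ν * 0) ≤ (p : ℝ) ^ m * (C + 4 * YY J p ν * 0) := by gcongr
    _ = C * (p : ℝ) ^ m := by ring

end Pool.Agent.Run7.h393.PV
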